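import Mathlib

/-!
# The perfect set theorem for analytic sets, and sets all of whose subsets are analytic
-/

namespace Pool.Agent.H261.Ext

open Set TopologicalSpace MeasureTheory Filter Function CantorScheme
open scoped ENNReal Topology

section Perfect

variable {β : Type*} [MetricSpace β] {α : Type*} [TopologicalSpace α]

theorem split_aux [SecondCountableTopology β] [T2Space α] {f : β → α} (hf : Continuous f) {E : Set β} (hE : IsClosed E)
    (hunc : ¬ (f '' E).Countable) {ε : ℝ≥0∞} (hε : 0 < ε) :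
    ∃ C₀ C₁ : Set β, (IsClosed C₀ ∧ ¬ (f '' C₀).Countable ∧ C₀ ⊆ E ∧ Metric.ediam C₀ ≤ ε) ∧
      (IsClosed C₁ ∧ ¬ (f '' C₁).Countable ∧ C₁ ⊆ E ∧ Metric.ediam C₁ ≤ ε) ∧
      Disjoint (f '' C₀) (f '' C₁) := by
  classical
  let Z : Set β := {x | x ∈ E ∧ ∀ U ∈ 𝓝 x, ¬ (f '' (U ∩ E)).Countable}
  have h1 : (f '' (E \ Z)).Countable := by
    have hx : ∀ x ∈ E \ Z, ∃ U ∈ 𝓝 x, (f '' (U ∩ E)).Countable := by
      intro x hx
      by_contra hcon
      push Not at hcon
      exact hx.2 ⟨hx.1, hcon⟩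
    choose! U hU hUc using hx
    obtain ⟨t, ht, htc, hcov⟩ := TopologicalSpace.countable_cover_nhdsWithin
      (s := E \ Z) (f := U) (fun x hx => mem_nhdsWithin_of_mem_nhds (hU x hx))
    refine (Set.Countable.biUnion htc (fun x hx => hUc x (ht hx))).mono ?_
    rintro _ ⟨x, hx, rfl⟩
    obtain ⟨y, hy, hxy⟩ := mem_iUnion₂.1 (hcov hx)
    exact mem_iUnion₂.2 ⟨y, hy, ⟨x, ⟨hxy, hx.1⟩, rfl⟩⟩
  have h2 : ¬ (f '' Z).Countable := by
    intro h
    apply hunc
    refine (h1.union h).mono ?_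
    rintro _ ⟨x, hx, rfl⟩
    by_cases hxZ : x ∈ Z
    · exact Or.inr ⟨x, hxZ, rfl⟩
    · exact Or.inl ⟨x, ⟨hx, hxZ⟩, rfl⟩
  have h3 : ¬ (f '' Z).Subsingleton := fun h => h2 h.countable
  rw [Set.not_subsingleton_iff] at h3
  obtain ⟨_, ⟨x₀, hx₀, rfl⟩, _, ⟨x₁, hx₁, rfl⟩, hne⟩ := h3
  obtain ⟨V₀, V₁, hV₀, hV₁, hm₀, hm₁, hdisj⟩ := t2_separation hne
  have key : ∀ (x : β) (V : Set α), x ∈ Z → IsOpen V → f x ∈ V →
      ∃ C : Set β, IsClosed C ∧ ¬ (f '' C).Countable ∧ C ⊆ E ∧ Metric.ediam C ≤ ε ∧ f '' C ⊆ V := by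
    intro x V hx hV hxV
    have hn : f ⁻¹' V ∈ 𝓝 x := (hV.preimage hf).mem_nhds hxV
    obtain ⟨r, hr, hrV⟩ := Metric.nhds_basis_closedEBall.mem_iff.1 hn
    let r' : ℝ≥0∞ := min r (ε / 2)
    have hr' : 0 < r' := lt_min hr (by simpa using hε.ne')
    refine ⟨Metric.closedEBall x r' ∩ E, Metric.isClosed_closedEBall.inter hE, ?_, inter_subset_right, ?_, ?_⟩
    · exact hx.2 _ (Metric.closedEBall_mem_nhds _ hr')
    · refine (Metric.ediam_mono inter_subset_left).trans (Metric.ediam_closedEBall_le.trans ?_)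
      calc 2 * r' ≤ 2 * (ε / 2) := by gcongr; exact min_le_right _ _
        _ ≤ ε := by
          rw [mul_comm, ENNReal.div_mul_cancel] <;> norm_num
    · rintro _ ⟨y, hy, rfl⟩
      exact hrV (Metric.closedEBall_subset_closedEBall (min_le_left _ _) hy.1)
  obtain ⟨C₀, a0, b0, c0, d0, e0⟩ := key x₀ V₀ hx₀ hV₀ hm₀
  obtain ⟨C₁, a1, b1, c1, d1, e1⟩ := key x₁ V₁ hx₁ hV₁ hm₁
  exact ⟨C₀, C₁, ⟨a0, b0, c0, d0⟩, ⟨a1, b1, c1, d1⟩, hdisj.mono e0 e1⟩

/-- If a continuous image of a closed set is uncountable, it contains a Cantor set. -/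
theorem exists_injection [SecondCountableTopology β] [T2Space α] [CompleteSpace β] {f : β → α} (hf : Continuous f) {E : Set β}
    (hE : IsClosed E) (hunc : ¬ (f '' E).Countable) :
    ∃ g : (ℕ → Bool) → β, range g ⊆ E ∧ Continuous g ∧ Injective (f ∘ g) := by
  obtain ⟨u, -, upos', hu⟩ := exists_seq_strictAnti_tendsto' (zero_lt_one' ℝ≥0∞)
  have upos := fun n => (upos' n).1
  let P := Subtype fun E : Set β => IsClosed E ∧ ¬ (f '' E).Countable
  choose C0 C1 h0 h1 hdisj using
    fun {C : Set β} (hC : IsClosed C) (hnonempty : ¬ (f '' C).Countable) {ε : ℝ≥0∞} (hε : 0 < ε) =>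
    split_aux hf hC hnonempty hε
  let DP : List Bool → P := fun l => by
    induction l with
    | nil => exact ⟨E, ⟨hE, hunc⟩⟩
    | cons a l ih =>
      cases a
      · use C0 ih.property.1 ih.property.2 (upos (l.length + 1))
        exact ⟨(h0 _ _ _).1, (h0 _ _ _).2.1⟩
      use C1 ih.property.1 ih.property.2 (upos (l.length + 1))
      exact ⟨(h1 _ _ _).1, (h1 _ _ _).2.1⟩
  let D : List Bool → Set β := fun l => (DP l).val
  have hDne : ∀ l, (D l).Nonempty := by
    intro l
    by_contra hcon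
    rw [Set.not_nonempty_iff_eq_empty] at hcon
    apply (DP l).property.2
    change (f '' (D l)).Countable
    rw [hcon]
    simp
  have hanti : ClosureAntitone D := by
    refine Antitone.closureAntitone ?_ fun l => (DP l).property.1
    intro l a
    cases a
    · exact (h0 _ _ _).2.2.1
    exact (h1 _ _ _).2.2.1
  have hdiam : VanishingDiam D := by
    intro x
    apply tendsto_of_tendsto_of_tendsto_of_le_of_le' tendsto_const_nhds hu
    · simp
    rw [eventually_atTop]
    refine ⟨1, fun m (hm : 1 ≤ m) => ?_⟩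
    rw [Nat.one_le_iff_ne_zero] at hm
    rcases Nat.exists_eq_succ_of_ne_zero hm with ⟨n, rfl⟩
    dsimp
    cases x n
    · convert! (h0 _ _ _).2.2.2
      rw [PiNat.res_length]
    convert! (h1 _ _ _).2.2.2
    rw [PiNat.res_length]
  have hdisj' : CantorScheme.Disjoint (fun l => f '' (D l)) := by
    rintro l (a | a) (b | b) hab <;> try contradiction
    · exact hdisj _ _ _
    exact (hdisj _ _ _).symm
  have hdom : ∀ {x : ℕ → Bool}, x ∈ (inducedMap D).1 := fun {x} => by
    rw [hanti.map_of_vanishingDiam hdiam hDne]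
    apply mem_univ
  refine ⟨fun x => (inducedMap D).2 ⟨x, hdom⟩, ?_, ?_, ?_⟩
  · rintro y ⟨x, rfl⟩
    exact map_mem ⟨_, hdom⟩ 0
  · apply hdiam.map_continuous.comp
    fun_prop
  · intro x y hxy
    by_contra hne
    obtain ⟨n, hn⟩ : ∃ n, x n ≠ y n := by
      by_contra hcon
      push Not at hcon
      exact hne (funext hcon)
    classical
    -- first difference
    have hex : ∃ n, x n ≠ y n := ⟨n, hn⟩
    let k := Nat.find hex
    have hk : x k ≠ y k := Nat.find_spec hex
    have hlt : ∀ m < k, x m = y m := by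
      intro m hm
      by_contra hcon
      exact Nat.find_min hex hm hcon
    have hrk : PiNat.res x k = PiNat.res y k := by
      rw [PiNat.res_eq_res]
      intro m hm
      exact hlt m hm
    have hx : (inducedMap D).2 ⟨x, hdom⟩ ∈ D (PiNat.res x (k + 1)) := map_mem ⟨x, hdom⟩ (k + 1)
    have hy : (inducedMap D).2 ⟨y, hdom⟩ ∈ D (PiNat.res y (k + 1)) := map_mem ⟨y, hdom⟩ (k + 1)
    rw [PiNat.res_succ] at hx hy
    rw [hrk] at hx
    have hd := hdisj' (PiNat.res y k) hk
    have hxy' : f ((inducedMap D).2 ⟨x, hdom⟩) = f ((inducedMap D).2 ⟨y, hdom⟩) := hxy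
    exact Set.disjoint_left.1 hd ⟨_, hx, rfl⟩ (hxy' ▸ ⟨_, hy, rfl⟩)

end Perfect

/-- The perfect set theorem for analytic sets. -/
theorem analytic_injection {α : Type*} [TopologicalSpace α] [T2Space α] {s : Set α}
    (hs : AnalyticSet s) (hunc : ¬ s.Countable) :
    ∃ g : (ℕ → Bool) → α, range g ⊆ s ∧ Continuous g ∧ Injective g := by
  rw [analyticSet_iff_exists_polishSpace_range] at hs
  obtain ⟨β, _, _, f, hf, hfs⟩ := hs
  let := TopologicalSpace.upgradeIsCompletelyMetrizable β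
  obtain ⟨g, -, hg, hinj⟩ := exists_injection hf (E := univ) isClosed_univ
    (by rw [image_univ, hfs]; exact hunc)
  refine ⟨f ∘ g, ?_, hf.comp hg, hinj⟩
  rw [← hfs]
  exact range_comp_subset_range g f

/-- If all subsets of a set are analytic, the set is countable. -/
theorem countable_of_all_analytic {α : Type*} [TopologicalSpace α] [T2Space α] {s : Set α}
    (hs : ∀ t ⊆ s, AnalyticSet t) : s.Countable := by
  by_contra hunc
  obtain ⟨g, hgs, hg, hinj⟩ := analytic_injection (hs s subset_rfl) hunc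
  have : PolishSpace (ℕ → Bool) := { }
  have hall : ∀ D : Set (ℕ → Bool), AnalyticSet D := by
    intro D
    have h := (hs (g '' D) ((image_subset_range g D).trans hgs)).preimage hg
    rwa [preimage_image_eq D hinj] at h
  have hmeas : ∀ D : Set (ℕ → Bool), @MeasurableSet _ (borel (ℕ → Bool)) D := by
    intro D
    let : MeasurableSpace (ℕ → Bool) := borel (ℕ → Bool)
    have : BorelSpace (ℕ → Bool) := ⟨rfl⟩
    exact (hall D).measurableSet_of_compl (hall Dᶜ)
  have hb := (isBasis_countableBasis (ℕ → Bool)).borel_eq_generateFrom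
  have h1 := MeasurableSpace.cardinal_measurableSet_le_continuum (α := (ℕ → Bool))
    (s := countableBasis (ℕ → Bool))
    (((countable_countableBasis (ℕ → Bool)).le_aleph0).trans Cardinal.aleph0_le_continuum)
  rw [← hb] at h1
  have h2 : {t : Set (ℕ → Bool) | @MeasurableSet _ (borel (ℕ → Bool)) t} = univ :=
    eq_univ_of_forall hmeas
  rw [h2, Cardinal.mk_univ, Cardinal.mk_set] at h1
  have h3 : Cardinal.mk (ℕ → Bool) = Cardinal.continuum := by simp
  rw [h3] at h1
  exact absurd h1 (not_le.2 (Cardinal.cantor _))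

end Pool.Agent.H261.Ext
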