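import Mathlib

/-!
# Countable families of functionals closed off with respect to the extreme points
-/

namespace Pool.Agent.H261.Ext

open Set TopologicalSpace Filter
open scoped Topology

variable {E : Type*} [AddCommGroup E] [Module ℝ E] [TopologicalSpace E]

/-- Evaluation of the functionals of a family `A` at a point. -/
def ev (A : Set (E →L[ℝ] ℝ)) (x : E) : A → ℝ := fun a => a.1 x

theorem ev_eq_iff {A : Set (E →L[ℝ] ℝ)} {x y : E} : ev A x = ev A y ↔ ∀ a ∈ A, a x = a y := by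
  constructor
  · intro h a ha
    exact congrFun h ⟨a, ha⟩
  · intro h
    funext a
    exact h a.1 a.2

theorem continuous_ev (A : Set (E →L[ℝ] ℝ)) : Continuous (ev A) :=
  continuous_pi fun a => a.1.continuous

theorem notMem_mono {A A' : Set (E →L[ℝ] ℝ)} (h : A ⊆ A') {x : E} {K : Set E}
    (hx : ev A x ∉ ev A '' K) : ev A' x ∉ ev A' '' K := by
  rintro ⟨y, hy, hyx⟩
  exact hx ⟨y, hy, ev_eq_iff.2 fun a ha => ev_eq_iff.1 hyx a (h ha)⟩

section sep

variable [IsTopologicalAddGroup E] [ContinuousSMul ℝ E] [LocallyConvexSpace ℝ E] [T2Space E]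

theorem sep_point {K : Set E} (hK : IsCompact K) {x : E} (hx : x ∉ K) :
    ∃ A : Set (E →L[ℝ] ℝ), A.Finite ∧ ev A x ∉ ev A '' K := by
  obtain ⟨t, ht⟩ := hK.elim_finite_subcover (fun a : E →L[ℝ] ℝ => {y | a y ≠ a x})
    (fun a => isOpen_ne_fun a.continuous continuous_const) (by
      intro y hy
      have hne : y ≠ x := fun h => hx (h ▸ hy)
      obtain ⟨f, hf⟩ := geometric_hahn_banach_point_point hne
      exact mem_iUnion.2 ⟨f, hf.ne⟩)
  refine ⟨↑t, t.finite_toSet, ?_⟩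
  rintro ⟨y, hy, hyx⟩
  obtain ⟨a, ha, hay⟩ := mem_iUnion₂.1 (ht hy)
  exact hay (ev_eq_iff.1 hyx a ha)

/-- A Lindelöf set and a disjoint compact set are separated by countably many functionals. -/
theorem sep_lindelof {T K : Set E} (hT : IsLindelof T) (hK : IsCompact K) (hd : Disjoint T K) :
    ∃ A : Set (E →L[ℝ] ℝ), A.Countable ∧ ∀ x ∈ T, ev A x ∉ ev A '' K := by
  choose! A hA hAx using fun (x : E) (hx : x ∈ T) =>
    sep_point hK (Set.disjoint_left.1 hd hx)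
  obtain ⟨t, htc, htT, ht⟩ := hT.elim_nhds_subcover (fun x => {x' | ev (A x) x' ∉ ev (A x) '' K})
    (by
      intro x hx
      refine IsOpen.mem_nhds ?_ (hAx x hx)
      have h1 : IsClosed (ev (A x) '' K) := (hK.image (continuous_ev _)).isClosed
      exact h1.isOpen_compl.preimage (continuous_ev _))
  refine ⟨⋃ x ∈ t, A x, htc.biUnion fun x hx => (hA x (htT x hx)).countable, ?_⟩
  intro x hx
  obtain ⟨y, hy, hyx⟩ := mem_iUnion₂.1 (ht hx)
  exact notMem_mono (subset_biUnion_of_mem (u := fun x => A x) hy) hyx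

end sep

/-- Points of `X` that are inside a segment with end points in `X` which are `δ`-apart for `a`. -/
def bad (X : Set E) (a : E →L[ℝ] ℝ) (δ : ℝ) : Set E :=
  X ∩ (fun p : ℝ × E × E => (1 - p.1) • p.2.1 + p.1 • p.2.2) ''
    ((Icc δ (1 - δ) ×ˢ (X ×ˢ X)) ∩ {p | δ ≤ |a p.2.1 - a p.2.2|})

theorem isCompact_bad [IsTopologicalAddGroup E] [ContinuousSMul ℝ E] [T2Space E]
    {X : Set E} (hX : IsCompact X) (a : E →L[ℝ] ℝ) (δ : ℝ) : IsCompact (bad X a δ) := by
  refine hX.inter ?_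
  refine IsCompact.image ?_ (by fun_prop)
  refine IsCompact.inter_right (isCompact_Icc.prod (hX.prod hX)) ?_
  exact isClosed_le continuous_const (by fun_prop)

theorem bad_disjoint {X : Set E} (a : E →L[ℝ] ℝ) {δ : ℝ} (hδ : 0 < δ) :
    Disjoint (X.extremePoints ℝ) (bad X a δ) := by
  rw [Set.disjoint_left]
  rintro x hx ⟨hxX, ⟨t, y₁, y₂⟩, ⟨⟨⟨ht1, ht2⟩, hy₁, hy₂⟩, hd⟩, rfl⟩
  simp only at ht1 ht2 hy₁ hy₂ hx hd
  rw [mem_extremePoints] at hx
  have h := hx.2 y₁ hy₁ y₂ hy₂ ⟨1 - t, t, by linarith, by linarith, by ring, rfl⟩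
  have h12 : y₁ = y₂ := h.1.trans h.2.symm
  have hd' : δ ≤ |a y₁ - a y₂| := hd
  rw [h12, sub_self, abs_zero] at hd'
  linarith

theorem mem_bad {X : Set E} {a : E →L[ℝ] ℝ} {y y₁ y₂ : E} (hy : y ∈ X) (hy₁ : y₁ ∈ X)
    (hy₂ : y₂ ∈ X) (hs : y ∈ openSegment ℝ y₁ y₂) (hne : a y₁ ≠ a y₂) :
    ∃ n : ℕ, y ∈ bad X a (1 / ((n : ℝ) + 1)) := by
  obtain ⟨s, t, hs0, ht0, hst, rfl⟩ := hs
  have h0 : 0 < min (min s t) |a y₁ - a y₂| :=
    lt_min (lt_min hs0 ht0) (abs_pos.2 (sub_ne_zero.2 hne))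
  obtain ⟨n, hn⟩ := exists_nat_one_div_lt h0
  have h1 := (hn.trans_le (min_le_left _ _)).trans_le (min_le_left _ _)
  have h2 := (hn.trans_le (min_le_left _ _)).trans_le (min_le_right _ _)
  have h3 := hn.trans_le (min_le_right _ _)
  refine ⟨n, hy, ⟨t, y₁, y₂⟩, ⟨⟨⟨h2.le, ?_⟩, hy₁, hy₂⟩, h3.le⟩, ?_⟩
  · linarith
  · simp only
    rw [← hst]
    congr 2
    ring

/-- Closing off. -/
theorem closing_off {β : Type*} (S : β → Set β) (hS : ∀ a, (S a).Countable) {A₀ : Set β}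
    (hA₀ : A₀.Countable) : ∃ A : Set β, A₀ ⊆ A ∧ A.Countable ∧ ∀ a ∈ A, S a ⊆ A := by
  let F : ℕ → Set β := fun n => Nat.rec A₀ (fun _ B => B ∪ ⋃ a ∈ B, S a) n
  have hF : ∀ n, (F n).Countable := by
    intro n
    induction n with
    | zero => exact hA₀
    | succ n ih => exact ih.union (ih.biUnion fun a _ => hS a)
  refine ⟨⋃ n, F n, subset_iUnion F 0, countable_iUnion hF, ?_⟩
  intro a ha
  obtain ⟨n, hn⟩ := mem_iUnion.1 ha
  refine Subset.trans ?_ (subset_iUnion F (n + 1))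
  exact (subset_biUnion_of_mem (u := fun a => S a) hn).trans subset_union_right

/-- Families `A` such that the images of the extreme points and of the bad points are disjoint. -/
def Closed (X : Set E) (A : Set (E →L[ℝ] ℝ)) : Prop :=
  ∀ a ∈ A, ∀ n : ℕ, ∀ x ∈ X.extremePoints ℝ, ev A x ∉ ev A '' bad X a (1 / ((n : ℝ) + 1))

section main

variable [IsTopologicalAddGroup E] [ContinuousSMul ℝ E] [LocallyConvexSpace ℝ E] [T2Space E]

theorem exists_closed {X : Set E} (hX : IsCompact X) (hT : IsLindelof (X.extremePoints ℝ))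
    {A₀ : Set (E →L[ℝ] ℝ)} (hA₀ : A₀.Countable) :
    ∃ A : Set (E →L[ℝ] ℝ), A₀ ⊆ A ∧ A.Countable ∧ Closed X A := by
  choose S hSc hS using fun (a : E →L[ℝ] ℝ) (n : ℕ) =>
    sep_lindelof hT (isCompact_bad hX a (1 / ((n : ℝ) + 1)))
      (bad_disjoint a (by positivity))
  obtain ⟨A, hA, hAc, hcl⟩ := closing_off (fun a => ⋃ n, S a n)
    (fun a => countable_iUnion fun n => hSc a n) hA₀
  refine ⟨A, hA, hAc, ?_⟩
  intro a ha n x hx
  exact notMem_mono ((subset_iUnion (S a) n).trans (hcl a ha)) (hS a n x hx)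

theorem image_eq {X : Set E} (hX : IsCompact X) {A : Set (E →L[ℝ] ℝ)} (hA : Closed X A) :
    ev A '' (X.extremePoints ℝ) =
      ev A '' X \ ⋃ a : A, ⋃ n : ℕ, ev A '' bad X a.1 (1 / ((n : ℝ) + 1)) := by
  apply Subset.antisymm
  · rintro _ ⟨x, hx, rfl⟩
    refine ⟨⟨x, hx.1, rfl⟩, ?_⟩
    rw [mem_iUnion]
    rintro ⟨a, ha⟩
    obtain ⟨n, hn⟩ := mem_iUnion.1 ha
    exact hA a.1 a.2 n x hx hn
  · rintro _ ⟨⟨y₀, hy₀, rfl⟩, hz⟩
    let Fz : Set E := X ∩ ev A ⁻¹' {ev A y₀}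
    have hFc : IsCompact Fz := hX.inter_right (isClosed_singleton.preimage (continuous_ev A))
    have hFne : Fz.Nonempty := ⟨y₀, hy₀, rfl⟩
    have hext : IsExtreme ℝ X Fz := by
      refine ⟨inter_subset_left, ?_⟩
      intro y₁ hy₁ y₂ hy₂ y hy hs
      refine ⟨hy₁, ?_⟩
      have hyy : ev A y = ev A y₀ := hy.2
      change ev A y₁ = ev A y₀
      rw [← hyy, ev_eq_iff]
      intro a ha
      have h12 : a y₁ = a y₂ := by
        by_contra hne
        obtain ⟨n, hn⟩ := mem_bad hy.1 hy₁ hy₂ hs hne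
        apply hz
        rw [mem_iUnion]
        exact ⟨⟨a, ha⟩, mem_iUnion.2 ⟨n, y, hn, hyy⟩⟩
      obtain ⟨s, t, hs0, ht0, hst, rfl⟩ := hs
      rw [map_add, map_smul, map_smul, ← h12, ← add_smul, hst, one_smul]
    obtain ⟨x, hx⟩ := hFc.extremePoints_nonempty hFne
    have hxX := hext.extremePoints_subset_extremePoints hx
    exact ⟨x, hxX, hx.1.2⟩

theorem measurableSet_image {X : Set E} (hX : IsCompact X) {A : Set (E →L[ℝ] ℝ)}
    (hAc : A.Countable) (hA : Closed X A) :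
    MeasurableSet (ev A '' (X.extremePoints ℝ)) := by
  have := hAc.to_subtype
  rw [image_eq hX hA]
  refine MeasurableSet.diff (hX.image (continuous_ev A)).isClosed.measurableSet ?_
  exact MeasurableSet.iUnion fun a => MeasurableSet.iUnion fun n =>
    ((isCompact_bad hX _ _).image (continuous_ev A)).isClosed.measurableSet

end main

end Pool.Agent.H261.Ext
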