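import Mathlib
import Pool.Agent.H261.Ext.Sep
import Pool.Agent.H261.Ext.Perfect

/-!
# Baire sets of a Lindelöf set of extreme points
-/

namespace Pool.Agent.H261.Ext

open Set TopologicalSpace Filter MeasureTheory
open scoped Topology

/-- The Baire sigma-algebra of a topological space: it is generated by the zero sets of the
continuous real functions. -/
@[reducible] def baireSigma (T : Type*) [TopologicalSpace T] : MeasurableSpace T :=
  MeasurableSpace.generateFrom {Z : Set T | ∃ g : C(T, ℝ), Z = g ⁻¹' {0}}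

variable {E : Type*} [AddCommGroup E] [Module ℝ E] [TopologicalSpace E]

/-- `B` is the trace on `T` of the preimage under `ev A` of a Borel set. -/
def Dep {T : Set E} (A : Set (E →L[ℝ] ℝ)) (B : Set T) : Prop :=
  ∃ D : Set (A → ℝ), MeasurableSet D ∧ ∀ x : T, x ∈ B ↔ ev A (x : E) ∈ D

theorem Dep.mono {T : Set E} {A A' : Set (E →L[ℝ] ℝ)} (h : A ⊆ A') {B : Set T} (hB : Dep A B) :
    Dep A' B := by
  obtain ⟨D, hD, hBD⟩ := hB
  refine ⟨(fun z : A' → ℝ => fun a : A => z ⟨a.1, h a.2⟩) ⁻¹' D, ?_, ?_⟩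
  · exact hD.preimage (measurable_pi_lambda _ fun a => measurable_pi_apply _)
  · intro x
    rw [hBD x]
    rfl

theorem Dep.compl {T : Set E} {A : Set (E →L[ℝ] ℝ)} {B : Set T} (hB : Dep A B) : Dep A Bᶜ := by
  obtain ⟨D, hD, hBD⟩ := hB
  refine ⟨Dᶜ, hD.compl, fun x => ?_⟩
  rw [mem_compl_iff, mem_compl_iff, hBD x]

theorem Dep.iUnion {T : Set E} {A : Set (E →L[ℝ] ℝ)} {B : ℕ → Set T} (hB : ∀ n, Dep A (B n)) :
    Dep A (⋃ n, B n) := by
  choose D hD hBD using hB
  refine ⟨⋃ n, D n, MeasurableSet.iUnion hD, fun x => ?_⟩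
  simp only [mem_iUnion, hBD]

section sep

variable [IsTopologicalAddGroup E] [ContinuousSMul ℝ E] [LocallyConvexSpace ℝ E] [T2Space E]

theorem dep_between {X T : Set E} (hX : IsCompact X) (hTX : T ⊆ X) (hT : IsLindelof T)
    {L W : Set T} (hL : IsClosed L) (hW : IsOpen W) (hLW : L ⊆ W) :
    ∃ (A : Set (E →L[ℝ] ℝ)) (B : Set T), A.Countable ∧ Dep A B ∧ L ⊆ B ∧ B ⊆ W := by
  obtain ⟨O, hO, rfl⟩ := isOpen_induced_iff.1 hW
  have hTl : LindelofSpace T := isLindelof_iff_lindelofSpace.1 hT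
  have hL' : IsLindelof (Subtype.val '' L : Set E) := hL.isLindelof.image continuous_subtype_val
  have hK : IsCompact (X \ O) := hX.diff hO
  obtain ⟨A, hAc, hA⟩ := sep_lindelof hL' hK (by
    rw [Set.disjoint_left]
    rintro _ ⟨x, hx, rfl⟩ hx2
    exact hx2.2 (hLW hx))
  have := hAc.to_subtype
  refine ⟨A, {x | ev A (x : E) ∉ ev A '' (X \ O)}, hAc, ⟨(ev A '' (X \ O))ᶜ, ?_, fun x => Iff.rfl⟩,
    ?_, ?_⟩
  · exact (hK.image (continuous_ev A)).isClosed.measurableSet.compl
  · intro x hx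
    exact hA x ⟨x, hx, rfl⟩
  · intro x hx
    by_contra hcon
    exact hx ⟨x, ⟨hTX x.2, hcon⟩, rfl⟩

/-- Every Baire set of a Lindelöf subset of a compact set depends on countably many functionals. -/
theorem dep_of_baire {X T : Set E} (hX : IsCompact X) (hTX : T ⊆ X) (hT : IsLindelof T)
    {B : Set T} (hB : MeasurableSet[baireSigma T] B) :
    ∃ A : Set (E →L[ℝ] ℝ), A.Countable ∧ Dep A B := by
  have hB' : MeasurableSpace.GenerateMeasurable {Z : Set T | ∃ g : C(T, ℝ), Z = g ⁻¹' {0}} B := hB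
  induction hB' with
  | basic u hu =>
    obtain ⟨g, rfl⟩ := hu
    have h1 : ∀ n : ℕ, ∃ (A : Set (E →L[ℝ] ℝ)) (B : Set T), A.Countable ∧ Dep A B ∧
        {x | 1 / ((n : ℝ) + 1) ≤ |g x|} ⊆ B ∧ B ⊆ (g ⁻¹' {0})ᶜ := by
      intro n
      refine dep_between hX hTX hT (isClosed_le continuous_const (by fun_prop))
        (isClosed_singleton.preimage g.continuous).isOpen_compl ?_
      intro x hx hx0
      have hx0' : g x = 0 := hx0
      have hx' : 1 / ((n : ℝ) + 1) ≤ |g x| := hx
      rw [hx0', abs_zero] at hx'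
      have : (0 : ℝ) < 1 / ((n : ℝ) + 1) := by positivity
      linarith
    choose A B hAc hAB hlB hBu using h1
    refine ⟨⋃ n, A n, countable_iUnion hAc, ?_⟩
    have h2 : Dep (⋃ n, A n) (⋃ n, B n) :=
      Dep.iUnion fun n => (hAB n).mono (subset_iUnion A n)
    have h3 : (⋃ n, B n)ᶜ = g ⁻¹' {0} := by
      rw [compl_eq_comm]
      apply Subset.antisymm
      · intro x hx
        have hx0 : g x ≠ 0 := hx
        obtain ⟨n, hn⟩ := exists_nat_one_div_lt (abs_pos.2 hx0)
        exact mem_iUnion.2 ⟨n, hlB n hn.le⟩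
      · exact iUnion_subset hBu
    rw [← h3]
    exact h2.compl
  | empty => exact ⟨∅, countable_empty, ∅, MeasurableSet.empty, fun x => by simp⟩
  | compl t ht ih =>
    obtain ⟨A, hA, hAt⟩ := ih ht
    exact ⟨A, hA, hAt.compl⟩
  | iUnion f hf ih =>
    choose A hA hAf using fun n => ih n (hf n)
    exact ⟨⋃ n, A n, countable_iUnion hA, Dep.iUnion fun n => (hAf n).mono (subset_iUnion A n)⟩

/-- Images of Baire sets of a Lindelöf set of extreme points under Baire measurable maps into the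
Cantor space are analytic. -/
theorem analytic_image {X : Set E} (hX : IsCompact X) (hT : IsLindelof (X.extremePoints ℝ))
    (c : X.extremePoints ℝ → (ℕ → Bool))
    (hc : ∀ n, MeasurableSet[baireSigma (X.extremePoints ℝ)] {x | c x n = true})
    {B : Set (X.extremePoints ℝ)} (hB : MeasurableSet[baireSigma (X.extremePoints ℝ)] B) :
    AnalyticSet (c '' B) := by
  classical
  choose An hAn hcn using fun n => dep_of_baire hX extremePoints_subset hT (hc n)
  obtain ⟨AB, hAB, hBd⟩ := dep_of_baire hX extremePoints_subset hT hB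
  obtain ⟨A, hA, hAc, hcl⟩ := exists_closed hX hT (A₀ := AB ∪ ⋃ n, An n)
    (hAB.union (countable_iUnion hAn))
  have := hAc.to_subtype
  choose D hD hcD using fun n => (hcn n).mono ((subset_iUnion An n).trans
    (subset_union_right.trans hA))
  obtain ⟨D', hD', hBD'⟩ := hBd.mono (subset_union_left.trans hA)
  have hM := measurableSet_image hX hAc hcl
  let C : (A → ℝ) → (ℕ → Bool) := fun z n => decide (z ∈ D n)
  have hC : Measurable C := by
    refine measurable_pi_lambda _ fun n => ?_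
    refine measurable_to_bool ?_
    have : (fun z => C z n) ⁻¹' {true} = D n := by
      ext z
      simp [C]
    rw [this]
    exact hD n
  have hCc : ∀ x : X.extremePoints ℝ, C (ev A x) = c x := by
    intro x
    funext n
    have h := hcD n x
    by_cases hx : c x n = true
    · rw [hx]
      exact decide_eq_true (h.1 hx)
    · have hx' : c x n = false := by simpa using hx
      rw [hx']
      exact decide_eq_false fun h' => hx (h.2 h')
  have himg : c '' B = C '' (D' ∩ ev A '' (X.extremePoints ℝ)) := by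
    apply Subset.antisymm
    · rintro _ ⟨x, hx, rfl⟩
      exact ⟨ev A x, ⟨(hBD' x).1 hx, ⟨x, x.2, rfl⟩⟩, hCc x⟩
    · rintro _ ⟨_, ⟨hz, ⟨x, hx, rfl⟩⟩, rfl⟩
      exact ⟨⟨x, hx⟩, (hBD' ⟨x, hx⟩).2 hz, (hCc ⟨x, hx⟩).symm⟩
  rw [himg]
  exact (hD'.inter hM).analyticSet_image hC

end sep

end Pool.Agent.H261.Ext
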