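import Mathlib
import Pool.Agent.H261.Ext.Baire

/-!
# Separability of the range of a Baire measurable map on a Lindelöf set of extreme points
-/

namespace Pool.Agent.H261.Ext

open Set TopologicalSpace Filter MeasureTheory
open scoped Topology ENNReal

/-- A nonseparable subset of a metric space has an uncountable separated subset. -/
theorem exists_separated {F : Type*} [MetricSpace F] {s : Set F} (hs : ¬ IsSeparable s) :
    ∃ ε : ℝ≥0∞, 0 < ε ∧ ∃ R ⊆ s, ¬ R.Countable ∧ R.Pairwise (fun x y => ε < edist x y) := by
  by_contra hcon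
  push Not at hcon
  apply hs
  have h1 : ∀ ε > (0 : ℝ≥0∞), ∃ t : Set F, t.Countable ∧ s ⊆ ⋃ x ∈ t, Metric.closedEBall x ε := by
    intro ε hε
    obtain ⟨R, hR⟩ := zorn_subset {R : Set F | R ⊆ s ∧ R.Pairwise (fun x y => ε < edist x y)} (by
      intro c hc hchain
      refine ⟨⋃₀ c, ⟨sUnion_subset fun t ht => (hc ht).1, ?_⟩, fun t ht => subset_sUnion_of_mem ht⟩
      rw [Set.pairwise_sUnion hchain.directedOn]
      exact fun t ht => (hc ht).2)
    have hRs := hR.prop
    refine ⟨R, ?_, ?_⟩
    · by_contra hunc
      exact hcon ε hε R hRs.1 hunc hRs.2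
    · intro x hx
      by_contra hxR
      have hfar : ∀ y ∈ R, ε < edist x y := by
        intro y hy
        by_contra hle
        exact hxR (mem_iUnion₂.2 ⟨y, hy, not_lt.1 hle⟩)
      have hmem : insert x R ∈ {R : Set F | R ⊆ s ∧ R.Pairwise (fun x y => ε < edist x y)} := by
        refine ⟨insert_subset hx hRs.1, ?_⟩
        refine hRs.2.insert fun y hy _ => ⟨hfar y hy, ?_⟩
        rw [edist_comm]
        exact hfar y hy
      have hxR' : x ∈ R := hR.le_of_ge hmem (subset_insert x R) (mem_insert x R)
      have := hfar x hxR'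
      simp at this
  obtain ⟨t, -, htc, hst⟩ := EMetric.subset_countable_closure_of_almost_dense_set s h1
  exact ⟨t, htc, hst⟩

variable {E : Type*} [AddCommGroup E] [Module ℝ E] [TopologicalSpace E]
  [IsTopologicalAddGroup E] [ContinuousSMul ℝ E] [LocallyConvexSpace ℝ E] [T2Space E]

theorem separable_range_metric {X : Set E} (hX : IsCompact X)
    (hT : IsLindelof (X.extremePoints ℝ)) {F : Type*} [MetricSpace F]
    (f : X.extremePoints ℝ → F)
    (hf : ∀ U : Set F, IsOpen U → MeasurableSet[baireSigma (X.extremePoints ℝ)] (f ⁻¹' U)) :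
    IsSeparable (range f) := by
  classical
  by_contra hns
  obtain ⟨ε, hε, R₀, hR₀, hunc₀, hsep₀⟩ := exists_separated hns
  have hcard : Cardinal.aleph 1 ≤ Cardinal.mk R₀ := by
    by_contra h
    exact hunc₀ ((Cardinal.countable_iff_lt_aleph_one R₀).2 (not_le.1 h))
  obtain ⟨R, hRR₀, hRcard⟩ := Cardinal.le_mk_iff_exists_subset.1 hcard
  have hunc : ¬ R.Countable := by
    rw [Cardinal.countable_iff_lt_aleph_one, hRcard]
    exact lt_irrefl _
  have hsep : R.Pairwise (fun x y => ε < edist x y) := hsep₀.mono hRR₀
  have hRf : R ⊆ range f := hRR₀.trans hR₀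
  obtain ⟨code⟩ : Nonempty (R ↪ (ℕ → Bool)) := by
    rw [← Cardinal.lift_mk_le', hRcard]
    simpa using Cardinal.aleph_one_le_continuum
  let U : Set R → Set F := fun S => ⋃ y ∈ S, Metric.eball (y : F) (ε / 2)
  have hUo : ∀ S, IsOpen (U S) := fun S => isOpen_biUnion fun y _ => Metric.isOpen_eball
  have hε2 : 0 < ε / 2 := by simpa using hε.ne'
  have hUmem : ∀ (S : Set R) (y : R) (z : F), z ∈ Metric.eball (y : F) (ε / 2) →
      (z ∈ U S ↔ y ∈ S) := by
    intro S y z hz
    constructor
    · intro h
      obtain ⟨y', hy', hzy'⟩ := mem_iUnion₂.1 h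
      by_cases hyy : y = y'
      · rw [hyy]; exact hy'
      · exfalso
        have h1 : ε < edist (y : F) y' := hsep y.2 y'.2 fun h => hyy (Subtype.ext h)
        have h2 : edist (y : F) y' ≤ edist (y : F) z + edist z y' := edist_triangle _ _ _
        have h3 : edist (y : F) z < ε / 2 := by rw [edist_comm]; exact hz
        have h4 : edist z (y' : F) < ε / 2 := hzy'
        have h5 : edist (y : F) y' < ε := by
          calc edist (y : F) y' ≤ _ := h2
            _ < ε / 2 + ε / 2 := ENNReal.add_lt_add h3 h4
            _ = ε := ENNReal.add_halves ε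
        exact absurd h1 (not_lt.2 h5.le)
    · intro h
      exact mem_iUnion₂.2 ⟨y, h, hz⟩
  let Sn : ℕ → Set R := fun n => {y | code y n = true}
  let c : X.extremePoints ℝ → (ℕ → Bool) := fun x n => decide (f x ∈ U (Sn n))
  have hc : ∀ n, MeasurableSet[baireSigma (X.extremePoints ℝ)] {x | c x n = true} := by
    intro n
    have : {x | c x n = true} = f ⁻¹' (U (Sn n)) := by
      ext x
      simp [c]
    rw [this]
    exact hf _ (hUo _)
  have hcode : ∀ (x : X.extremePoints ℝ) (y : R), f x ∈ Metric.eball (y : F) (ε / 2) →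
      c x = code y := by
    intro x y hxy
    funext n
    have h := hUmem (Sn n) y (f x) hxy
    by_cases hy : code y n = true
    · rw [hy]
      exact decide_eq_true (h.2 hy)
    · have hy' : code y n = false := by simpa using hy
      rw [hy']
      exact decide_eq_false fun h' => hy (h.1 h')
  have hall : ∀ t ⊆ range code, AnalyticSet t := by
    intro t ht
    have htc : t = c '' (f ⁻¹' (U (code ⁻¹' t))) := by
      apply Subset.antisymm
      · intro z hz
        obtain ⟨y, rfl⟩ := ht hz
        obtain ⟨x, hx⟩ := hRf y.2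
        have hxy : f x ∈ Metric.eball (y : F) (ε / 2) := by
          rw [hx]
          exact Metric.mem_eball_self hε2
        exact ⟨x, (hUmem _ y _ hxy).2 hz, hcode x y hxy⟩
      · rintro _ ⟨x, hx, rfl⟩
        obtain ⟨y, hy, hxy⟩ := mem_iUnion₂.1 hx
        rw [hcode x y hxy]
        exact hy
    rw [htc]
    exact analytic_image hX hT c hc (hf _ (hUo _))
  have hcount : (range code).Countable := countable_of_all_analytic hall
  apply hunc
  have h1 : (univ : Set R).Countable := by
    have : (code '' univ).Countable := by rwa [image_univ]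
    exact (Set.countable_of_injective_of_countable_image (code.injective.injOn) this)
  exact Set.countable_coe_iff.1 (Set.countable_univ_iff.1 h1)

/-- The range of a Baire measurable map from a Lindelöf set of extreme points of a compact set into
a metrizable space is separable. -/
theorem separable_range {X : Set E} (hX : IsCompact X)
    (hT : IsLindelof (X.extremePoints ℝ)) {F : Type*} [TopologicalSpace F] [MetrizableSpace F]
    (f : X.extremePoints ℝ → F)
    (hf : ∀ U : Set F, IsOpen U → MeasurableSet[baireSigma (X.extremePoints ℝ)] (f ⁻¹' U)) :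
    IsSeparable (range f) := by
  let := metrizableSpaceMetric F
  exact separable_range_metric hX hT f hf

end Pool.Agent.H261.Ext
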